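import Pool.Agent.Lib.MP_bfe17a_co.Graph

/-!
The interval property of PSD propagation times fails, with arbitrarily long gaps.
The witness is the join of `s` isolated vertices and a path on `s + 1` vertices.
-/

namespace Pool.Agent.Results.MP_bfe17a_co.IntervalFails

open Pool.Agent.Lib.MP_bfe17a_co

/-- For every `m` there are a finite graph `G` and an integer `a` such that none of the `m + 1`
consecutive integers `a, …, a + m`, all of them strictly between `pt₊(G)` and `PT₊(G)`, is the
propagation time of a minimum PSD zero forcing set of `G`. -/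
theorem result (m : ℕ) :
    ∃ (n : ℕ) (G : SimpleGraph (Fin n)) (a : ℕ), ptMin G < a ∧ a + m < ptMax G ∧
      ∀ k, a ≤ k → k ≤ a + m → ¬ ∃ S : Set (Fin n), IsMinForcing G S ∧ propTime G S = k := by
  have hs : 2 ≤ 2 * m + 8 := by omega
  refine ⟨2 * (2 * m + 8) + 1, gr (2 * m + 8), 3, ?_, ?_, ?_⟩
  · have h1 : ptMin (gr (2 * m + 8)) ≤ 1 :=
      le_trans (Nat.sInf_le ⟨PP _, isMin_PP hs, rfl⟩) (propTime_PP_le _)
    omega
  · have hbdd : BddAbove {t | ∃ S : Set (Fin (2 * (2 * m + 8) + 1)),
        IsMinForcing (gr (2 * m + 8)) S ∧ propTime (gr (2 * m + 8)) S = t} := by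
      apply Set.Finite.bddAbove
      apply Set.Finite.subset (Set.finite_range (fun S => propTime (gr (2 * m + 8)) S))
      rintro t ⟨S, _, rfl⟩
      exact ⟨S, rfl⟩
    have h2 : 2 * m + 8 ≤ ptMax (gr (2 * m + 8)) :=
      le_csSup hbdd ⟨QQ _, isMin_QQ hs, propTime_QQ hs⟩
    omega
  · rintro k hk1 hk2 ⟨S, hS, hSk⟩
    exact no_propTime hs hS hk1 (by omega) hSk

end Pool.Agent.Results.MP_bfe17a_co.IntervalFails
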